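import Mathlib
import Pool.Agent.H948Z.LSDefs
import Pool.Agent.H948Z.LS3

set_option autoImplicit false

namespace Pool.Agent.Results.MP_7f7a01_al.ThresholdHalf

open Pool.Agent.H948Z.LS

universe u

/-- Over every field `K` (of any characteristic) and for every `ε > 0`, the class of
`ε`-approximable countable groups equals the class of linear sofic groups (`ε = 1/4`) if and only
if `ε ≤ 1/2`. -/
theorem result (K : Type u) [Field K] (ε : ℝ) (hε : 0 < ε) :
    (∀ (G : Type) [Group G] [Countable G], Approximable K G ε ↔ Approximable K G (1 / 4)) ↔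
      ε ≤ 1 / 2 :=
  threshold K ε hε

end Pool.Agent.Results.MP_7f7a01_al.ThresholdHalf
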